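import Pool.Agent.H487.GP.Stm2
import Pool.Agent.H874.GP.GKB

/-!
The bounds of `S_GKB`, uniformly for bounded `v` (`S_GKBU`), from `S_KBH` (helper4 for helper487; the main
part is a copy of the proof of helper874).
-/

set_option autoImplicit false

open Complex Filter Topology Set MeasureTheory

namespace Pool.Agent.H4.GP

open Pool.Agent.H487.GA (FF C2c)
open Pool.Agent.H487.GP (Fh Gv S_KBH S_GKBU)
open Pool.Agent.H331.GA (hcs le_l1 FF_der FF_cont FF_deriv FF_hasDeriv nrm_exp cont_e int_e)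
open Pool.Agent.H874.GP (av av_cont l1_av av_eq av_der av_of_der FF_shift N N1 N_le N_der N1_le N_cont
  N1_cont)

/-- the bounds for `Gv v` with the constant `C` -/
def Bds (v C : ℝ) : Prop := ∀ y : ℝ, 0 < y → y ≤ 1 → |v| * y ≤ 1 / 2 → C2c (Gv v y) ∧
  ∫ x : ℝ, |Gv v y x| ≤ C * y ∧
  ∫ x : ℝ, |deriv (deriv (Gv v y)) x| ≤ C / y ∧ ContinuousOn (FF (Gv v y)) (Ioi 0) ∧
  ContinuousOn (deriv (FF (Gv v y))) (Ioi 0) ∧
  ∀ ξ : ℝ, 0 < ξ → ‖FF (Gv v y) ξ‖ ≤ C * y ∧ ‖FF (Gv v y) ξ‖ ≤ C / (y * ξ ^ 2) ∧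
    ‖deriv (FF (Gv v y)) ξ‖ ≤ C * (y * Real.sqrt y) ∧ ‖deriv (FF (Gv v y)) ξ‖ ≤ C / ξ ^ 2 ∧
    ‖FF (Gv v y) ξ - ((Real.pi * Real.exp (-(y * ξ)) : ℝ) : ℂ) *
      ((1 - cexp (-(((v * y * ξ : ℝ) : ℂ) * I))) / (I * ξ))‖ ≤ C * y ^ 2 / (1 + ξ ^ 2)

theorem Bds.mono {v C C' : ℝ} (hCC : C ≤ C') (h : Bds v C) : Bds v C' := by
  intro y hy hy1 hvy
  obtain ⟨h1, h2, h3, h4, h5, h6⟩ := h y hy hy1 hvy
  have hs : 0 ≤ Real.sqrt y := Real.sqrt_nonneg y
  refine ⟨h1, h2.trans ?_, h3.trans ?_, h4, h5, fun ξ hξ => ?_⟩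
  · gcongr
  · gcongr
  · obtain ⟨b1, b2, b3, b4, b5⟩ := h6 ξ hξ
    refine ⟨b1.trans ?_, b2.trans ?_, b3.trans ?_, b4.trans ?_, b5.trans ?_⟩
    · gcongr
    · gcongr
    · gcongr
    · gcongr
    · gcongr

theorem gkb_core : S_KBH → ∃ C0 : ℝ, 0 < C0 ∧ ∀ v : ℝ, Bds v (C0 * (|v| + 3 * v ^ 2 + 1)) := by
  rintro ⟨C0, hC0, hK⟩
  refine ⟨C0, hC0, fun v y hy hy1 hvy => ?_⟩
  obtain ⟨hC2, hsupp, hl1, hl2, hc1, hc2, hξ⟩ := hK y hy (by linarith)
  have hva : |v * y| = |v| * y := by rw [abs_mul, abs_of_pos hy]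
  have hv0 : 0 ≤ |v| := abs_nonneg v
  -- the function
  have hFc : Continuous (Fh y) := hC2.cd.continuous
  have hF1 : ∀ x, HasDerivAt (Fh y) (deriv (Fh y) x) x := fun x =>
    (hC2.cd.differentiable (by norm_num) x).hasDerivAt
  have hd1 : ContDiff ℝ 1 (deriv (Fh y)) := by
    have h := hC2.cd
    rw [show (2 : WithTop ℕ∞) = 1 + 1 by norm_num] at h
    exact (contDiff_succ_iff_deriv.1 h).2.2
  have hF2 : ∀ x, HasDerivAt (deriv (Fh y)) (deriv (deriv (Fh y)) x) x := fun x =>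
    (hd1.differentiable (by norm_num) x).hasDerivAt
  have hFc1 : Continuous (deriv (Fh y)) := hd1.continuous
  have hFc2 : Continuous (deriv (deriv (Fh y))) := hd1.continuous_deriv le_rfl
  have hFs : HasCompactSupport (Fh y) := hcs hC2.supp
  have hFs1 : HasCompactSupport (deriv (Fh y)) := hFs.deriv
  have hFs2 : HasCompactSupport (deriv (deriv (Fh y))) := hFs1.deriv
  have hG : Gv v y = fun x => 1 / y * av (Fh y) (v * y) x := rfl
  have hGd : ∀ x, HasDerivAt (Gv v y) (1 / y * (Fh y x - Fh y (x - v * y))) x := fun x => by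
    rw [hG]
    exact (av_der hFc (v * y) x).const_mul (1 / y)
  have hGd1 : deriv (Gv v y) = fun x => 1 / y * (Fh y x - Fh y (x - v * y)) :=
    funext fun x => (hGd x).deriv
  have hGd2 : deriv (deriv (Gv v y)) = fun x => 1 / y * av (deriv (deriv (Fh y))) (v * y) x := by
    rw [hGd1]
    funext x
    have h1 : HasDerivAt (fun x => Fh y (x - v * y)) (deriv (Fh y) (x - v * y)) x :=
      (hF1 (x - v * y)).comp_sub_const x (v * y)
    have h2 : HasDerivAt (fun x => 1 / y * (Fh y x - Fh y (x - v * y)))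
        (1 / y * (deriv (Fh y) x - deriv (Fh y) (x - v * y))) x :=
      ((hF1 x).sub h1).const_mul (1 / y)
    rw [h2.deriv, av_of_der hF2 hFc2]
  have hGc : Continuous (Gv v y) := by
    rw [hG]
    exact (av_cont hFc _).const_mul _
  have hshift : ContDiff ℝ 2 (fun x => Fh y (x - v * y)) :=
    hC2.cd.comp (contDiff_id.sub contDiff_const)
  have hGC2 : C2c (Gv v y) := by
    constructor
    · rw [show (2 : WithTop ℕ∞) = 1 + 1 by norm_num, contDiff_succ_iff_deriv]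
      refine ⟨fun x => (hGd x).differentiableAt, by simp, ?_⟩
      rw [hGd1]
      exact ((hC2.cd.sub hshift).of_le (by norm_num)).const_smul (1 / y)
    · intro x hx
      have h1 : av (Fh y) (v * y) x = 0 := by
        unfold av
        rw [intervalIntegral.integral_congr (g := fun _ => 0), intervalIntegral.integral_zero]
        intro w hw
        refine hsupp _ ?_
        have h2 : |w| ≤ |v * y| := by
          have h3 := abs_sub_left_of_mem_uIcc hw
          simpa using h3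
        have h3 : |x| - |w| ≤ |x - w| := abs_sub_abs_le_abs_sub x w
        rw [hva] at h2
        linarith
      rw [hG]
      simp only [h1, mul_zero]
  have hGs : HasCompactSupport (Gv v y) := hcs hGC2.supp
  have hGi : Integrable (Gv v y) := hGc.integrable_of_hasCompactSupport hGs
  have hFi : Integrable (Fh y) := hFc.integrable_of_hasCompactSupport hFs
  -- the transform
  have hFF : ∀ ξ : ℝ, 0 < ξ → FF (Gv v y) ξ = FF (Fh y) ξ * (N (v * y) ξ / y) := by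
    intro ξ h0
    have h1 := FF_der hGd hGi (((hFi.sub (hFi.comp_sub_right (v * y))).const_mul (1 / y))) ξ
    have h2 : FF (fun x => 1 / y * (Fh y x - Fh y (x - v * y))) ξ =
        1 / y * (FF (Fh y) ξ - cexp (-(((v * y * ξ : ℝ) : ℂ) * I)) * FF (Fh y) ξ) := by
      rw [← FF_shift]
      unfold FF
      rw [← integral_sub (int_e hFi ξ) (int_e (hFi.comp_sub_right (v * y)) ξ),
        ← integral_const_mul]
      congr 1
      funext s
      push_cast
      ring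
    rw [h2] at h1
    unfold N
    have h3 : (ξ : ℂ) ≠ 0 := by exact_mod_cast h0.ne'
    have h4 : (y : ℂ) ≠ 0 := by exact_mod_cast hy.ne'
    have h5 : FF (Gv v y) ξ = 1 / (I * ξ) * (I * ξ * FF (Gv v y) ξ) := by
      field_simp
    rw [h5, ← h1]
    field_simp
  have hFFd : ∀ ξ : ℝ, 0 < ξ → HasDerivAt (FF (Gv v y))
      (deriv (FF (Fh y)) ξ * (N (v * y) ξ / y) + FF (Fh y) ξ * (N1 (v * y) ξ / y)) ξ := by
    intro ξ h0
    have h1 := ((FF_hasDeriv hFc hFs ξ).differentiableAt.hasDerivAt).mul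
      ((N_der (v * y) h0).div_const (y : ℂ))
    refine h1.congr_of_eventuallyEq ?_
    filter_upwards [Ioi_mem_nhds h0] with z hz
    rw [hFF z hz]
    rfl
  have hNy : ∀ ξ : ℝ, 0 < ξ → ‖N (v * y) ξ / y‖ ≤ |v| := by
    intro ξ h0
    rw [norm_div, Complex.norm_real, Real.norm_eq_abs, abs_of_pos hy, div_le_iff₀ hy, ← hva]
    exact N_le _ h0
  have hN1y : ∀ ξ : ℝ, 0 < ξ → ‖N1 (v * y) ξ / y‖ ≤ 3 * v ^ 2 * y := by
    intro ξ h0
    rw [norm_div, Complex.norm_real, Real.norm_eq_abs, abs_of_pos hy, div_le_iff₀ hy]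
    refine (N1_le _ h0).trans (le_of_eq ?_)
    ring
  have hyc : (y : ℂ) ≠ 0 := by exact_mod_cast hy.ne'
  refine ⟨hGC2, ?_, ?_, ?_, ?_, fun ξ h0 => ?_⟩
  · -- L1
    have h1 := l1_av hFc hFs (v * y)
    have h2 : ∫ x : ℝ, |Gv v y x| = 1 / y * ∫ x : ℝ, |av (Fh y) (v * y) x| := by
      rw [← integral_const_mul]
      congr 1
      funext x
      rw [hG]
      simp only
      rw [abs_mul, abs_of_pos (by positivity : 0 < 1 / y)]
    rw [h2]
    calc 1 / y * ∫ x : ℝ, |av (Fh y) (v * y) x| ≤ 1 / y * (|v * y| * (C0 * y)) := by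
          gcongr
          exact h1.trans (by gcongr)
      _ = C0 * |v| * y := by
          rw [hva]
          field_simp
      _ ≤ C0 * (|v| + 3 * v ^ 2 + 1) * y := by
          gcongr
          nlinarith [sq_nonneg v]
  · have h1 := l1_av hFc2 hFs2 (v * y)
    have h2 : ∫ x : ℝ, |deriv (deriv (Gv v y)) x| =
        1 / y * ∫ x : ℝ, |av (deriv (deriv (Fh y))) (v * y) x| := by
      rw [← integral_const_mul]
      congr 1
      funext x
      rw [hGd2]
      simp only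
      rw [abs_mul, abs_of_pos (by positivity : 0 < 1 / y)]
    rw [h2]
    calc 1 / y * ∫ x : ℝ, |av (deriv (deriv (Fh y))) (v * y) x| ≤ 1 / y * (|v * y| * (C0 / y)) := by
          gcongr
          exact h1.trans (by gcongr)
      _ = C0 * |v| / y := by
          rw [hva]
          field_simp
      _ ≤ C0 * (|v| + 3 * v ^ 2 + 1) / y := by
          gcongr
          nlinarith [sq_nonneg v]
  · refine ContinuousOn.congr (f := fun ξ => FF (Fh y) ξ * (N (v * y) ξ / y)) ?_ hFF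
    exact hc1.mul ((N_cont _).div_const _)
  · refine ContinuousOn.congr (f := fun ξ => deriv (FF (Fh y)) ξ * (N (v * y) ξ / y) +
      FF (Fh y) ξ * (N1 (v * y) ξ / y)) ?_ fun ξ h0 => (hFFd ξ h0).deriv
    exact (hc2.mul ((N_cont _).div_const _)).add (hc1.mul ((N1_cont _).div_const _))
  · obtain ⟨b1, b2, b3, b4, b5, b6⟩ := hξ ξ h0
    have hN := hNy ξ h0
    have hN1 := hN1y ξ h0
    have hyy : y ≤ Real.sqrt y := by
      rw [Real.le_sqrt hy.le hy.le]
      nlinarith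
    have hle : |v| ≤ |v| + 3 * v ^ 2 + 1 := by nlinarith [sq_nonneg v]
    refine ⟨?_, ?_, ?_, ?_, ?_⟩
    · rw [hFF ξ h0, norm_mul]
      calc ‖FF (Fh y) ξ‖ * ‖N (v * y) ξ / y‖ ≤ (C0 * y) * |v| := by gcongr
        _ = C0 * |v| * y := by ring
        _ ≤ C0 * (|v| + 3 * v ^ 2 + 1) * y := by gcongr
    · rw [hFF ξ h0, norm_mul]
      calc ‖FF (Fh y) ξ‖ * ‖N (v * y) ξ / y‖ ≤ (C0 / (y * ξ ^ 2)) * |v| := by gcongr
        _ = C0 * |v| / (y * ξ ^ 2) := by ring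
        _ ≤ C0 * (|v| + 3 * v ^ 2 + 1) / (y * ξ ^ 2) := by gcongr
    · rw [(hFFd ξ h0).deriv]
      calc ‖deriv (FF (Fh y)) ξ * (N (v * y) ξ / y) + FF (Fh y) ξ * (N1 (v * y) ξ / y)‖
          ≤ ‖deriv (FF (Fh y)) ξ‖ * ‖N (v * y) ξ / y‖ + ‖FF (Fh y) ξ‖ * ‖N1 (v * y) ξ / y‖ := by
            refine (norm_add_le _ _).trans ?_
            rw [norm_mul, norm_mul]
        _ ≤ C0 * (y * Real.sqrt y) * |v| + C0 * y * (3 * v ^ 2 * y) := by gcongr
        _ ≤ C0 * (y * Real.sqrt y) * |v| + C0 * y * (3 * v ^ 2 * Real.sqrt y) := by gcongr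
        _ ≤ C0 * (|v| + 3 * v ^ 2 + 1) * (y * Real.sqrt y) := by
            have : 0 ≤ C0 * (y * Real.sqrt y) := by positivity
            nlinarith
    · rw [(hFFd ξ h0).deriv]
      calc ‖deriv (FF (Fh y)) ξ * (N (v * y) ξ / y) + FF (Fh y) ξ * (N1 (v * y) ξ / y)‖
          ≤ ‖deriv (FF (Fh y)) ξ‖ * ‖N (v * y) ξ / y‖ + ‖FF (Fh y) ξ‖ * ‖N1 (v * y) ξ / y‖ := by
            refine (norm_add_le _ _).trans ?_
            rw [norm_mul, norm_mul]
        _ ≤ C0 / ξ ^ 2 * |v| + C0 / (y * ξ ^ 2) * (3 * v ^ 2 * y) := by gcongr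
        _ = C0 * (|v| + 3 * v ^ 2) / ξ ^ 2 := by field_simp
        _ ≤ C0 * (|v| + 3 * v ^ 2 + 1) / ξ ^ 2 :=
            div_le_div_of_nonneg_right
              (mul_le_mul_of_nonneg_left (by linarith) hC0.le) (by positivity)
    · rw [hFF ξ h0]
      have h1 : FF (Fh y) ξ * (N (v * y) ξ / y) - ((Real.pi * Real.exp (-(y * ξ)) : ℝ) : ℂ) *
          ((1 - cexp (-(((v * y * ξ : ℝ) : ℂ) * I))) / (I * ξ)) =
          (FF (Fh y) ξ - ((Real.pi * y * Real.exp (-(y * ξ)) : ℝ) : ℂ)) * (N (v * y) ξ / y) := by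
        rw [show (1 - cexp (-(((v * y * ξ : ℝ) : ℂ) * I))) / (I * ξ) = N (v * y) ξ from rfl]
        push_cast
        field_simp
      rw [h1, norm_mul]
      calc ‖FF (Fh y) ξ - ((Real.pi * y * Real.exp (-(y * ξ)) : ℝ) : ℂ)‖ * ‖N (v * y) ξ / y‖
          ≤ (C0 * y ^ 2 / (1 + ξ ^ 2)) * |v| := by gcongr
        _ = C0 * |v| * y ^ 2 / (1 + ξ ^ 2) := by ring
        _ ≤ C0 * (|v| + 3 * v ^ 2 + 1) * y ^ 2 / (1 + ξ ^ 2) := by gcongr

theorem gkbu_proof : S_KBH → S_GKBU := by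
  intro h v1 hv1
  obtain ⟨C0, hC0, hc⟩ := gkb_core h
  refine ⟨C0 * (v1 + 3 * v1 ^ 2 + 1), by positivity, fun v hv => ?_⟩
  refine (hc v).mono ?_
  have h2 : v ^ 2 ≤ v1 ^ 2 := by
    rw [← sq_abs v]
    exact pow_le_pow_left₀ (abs_nonneg v) hv 2
  refine mul_le_mul_of_nonneg_left ?_ hC0.le
  linarith

end Pool.Agent.H4.GP
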